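import Pool.Agent.K1H35.SH.Stm2

set_option autoImplicit false

/-! # Project SQ: constraints in random regular graphs (by helper7) -/

namespace Pool.Agent.K1H7.SQ

open Finset Pool.Agent.K1H35.SH

namespace LCC

open Classical in
/-- the edges of `G` inside `U` -/
noncomputable def EU {n : ℕ} (U : Finset (Fin n)) (G : SimpleGraph (Fin n)) :
    Finset (Sym2 (Fin n)) := (prs U).filter (fun e => e ∈ G.edgeSet)

theorem mem_prs {n : ℕ} {U : Finset (Fin n)} {e : Sym2 (Fin n)} :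
    e ∈ prs U ↔ ¬ e.IsDiag ∧ ∀ x ∈ e, x ∈ U := by
  unfold prs
  simp

theorem mem_EU {n : ℕ} {U : Finset (Fin n)} {G : SimpleGraph (Fin n)} {e : Sym2 (Fin n)} :
    e ∈ EU U G ↔ e ∈ prs U ∧ e ∈ G.edgeSet := by
  unfold EU
  simp

theorem mk_mem_prs {n : ℕ} {U : Finset (Fin n)} {x y : Fin n} :
    s(x, y) ∈ prs U ↔ x ≠ y ∧ x ∈ U ∧ y ∈ U := by
  rw [mem_prs]
  simp

theorem mk_mem_EU {n : ℕ} {U : Finset (Fin n)} {G : SimpleGraph (Fin n)} {x y : Fin n} :
    s(x, y) ∈ EU U G ↔ x ∈ U ∧ y ∈ U ∧ G.Adj x y := by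
  rw [mem_EU, mk_mem_prs, SimpleGraph.mem_edgeSet]
  constructor
  · rintro ⟨⟨h1, h2, h3⟩, h4⟩
    exact ⟨h2, h3, h4⟩
  · rintro ⟨h2, h3, h4⟩
    exact ⟨⟨h4.ne, h2, h3⟩, h4⟩

theorem two_card {n : ℕ} (S : Finset (Fin n × Fin n)) (T : Finset (Sym2 (Fin n)))
    (h : ∀ x y, (x, y) ∈ S ↔ s(x, y) ∈ T) (hT : ∀ e ∈ T, ¬ e.IsDiag) :
    S.card = 2 * T.card := by
  classical
  have h1 : ∀ p ∈ S, s(p.1, p.2) ∈ T := by
    rintro ⟨x, y⟩ hp
    exact (h x y).1 hp
  rw [Finset.card_eq_sum_card_fiberwise (f := fun p : Fin n × Fin n => s(p.1, p.2)) (t := T) h1]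
  have h2 : ∀ e ∈ T, (S.filter (fun p => s(p.1, p.2) = e)).card = 2 := by
    intro e
    induction e with
    | _ x y =>
      intro he
      have hxy : x ≠ y := by
        intro hxy
        exact hT _ he (by simpa using hxy)
      have : S.filter (fun p => s(p.1, p.2) = s(x, y)) = {(x, y), (y, x)} := by
        ext ⟨a, b⟩
        rw [mem_filter, mem_insert, mem_singleton, h a b]
        constructor
        · rintro ⟨h3, h4⟩
          have h5 : s(a, b) = s(x, y) := h4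
          rw [Sym2.eq_iff] at h5
          rcases h5 with ⟨rfl, rfl⟩ | ⟨rfl, rfl⟩
          · exact Or.inl rfl
          · exact Or.inr rfl
        · rintro (h3 | h3)
          · obtain ⟨rfl, rfl⟩ := Prod.mk.inj h3
            exact ⟨he, rfl⟩
          · obtain ⟨rfl, rfl⟩ := Prod.mk.inj h3
            have : s(a, b) = s(b, a) := Sym2.eq_swap
            exact ⟨this ▸ he, this⟩
      rw [this]
      exact Finset.card_pair (fun h => hxy (Prod.mk.inj h).1)
  rw [Finset.sum_congr rfl h2, Finset.sum_const, smul_eq_mul, mul_comm]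

theorem cnt_eq {n d : ℕ} (P : SimpleGraph (Fin n) → Prop) [DecidablePred P] :
    cnt n d P = ((reg n d).filter P).card := by
  unfold cnt
  congr

theorem E2_eq {n : ℕ} (G : SimpleGraph (Fin n)) (U : Finset (Fin n)) :
    E2 G U = 2 * (EU U G).card := by
  unfold E2
  apply two_card
  · intro x y
    rw [mk_mem_EU]
    simp
  · intro e he
    exact (mem_prs.1 (mem_EU.1 he).1).1

theorem card_prs {n : ℕ} (U : Finset (Fin n)) : 2 * (prs U).card = U.card * (U.card - 1) := by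
  classical
  rw [← two_card U.offDiag (prs U)]
  · rw [Finset.offDiag_card, Nat.mul_sub, mul_one]
  · intro x y
    rw [mk_mem_prs, mem_offDiag]
    tauto
  · intro e he
    exact (mem_prs.1 he).1

theorem agree {n : ℕ} {U : Finset (Fin n)} {G H : SimpleGraph (Fin n)} (h : EU U G = EU U H) :
    ∀ x ∈ U, ∀ y ∈ U, (G.Adj x y ↔ H.Adj x y) := by
  intro x hx y hy
  have h1 : s(x, y) ∈ EU U G ↔ s(x, y) ∈ EU U H := by rw [h]
  rw [mk_mem_EU, mk_mem_EU] at h1
  tauto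

end LCC

open LCC in
theorem t_LCC (hLC : S_LC) (hCC : S_CC) : S_LCC := by
  intro n d U D τ σ r m hu hD hτ hr
  classical
  obtain ⟨u, hud⟩ : ∃ u, u = U.card := ⟨_, rfl⟩
  obtain ⟨N, hN⟩ : ∃ N, N = (prs U).card := ⟨_, rfl⟩
  obtain ⟨R, hR⟩ : ∃ R, R = (reg n d).card := ⟨_, rfl⟩
  have hNu : 2 * N = u * (u - 1) := by rw [hN, hud]; exact card_prs U
  have hNu2 : u * (u - 1) / 2 = N := by omega
  rw [← hud] at hu ⊢
  rw [← hR]
  have hN1 : 1 ≤ N := by
    have : 2 * 1 ≤ u * (u - 1) := Nat.mul_le_mul hu (by omega)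
    omega
  have hNle : N + 1 ≤ u ^ 2 := by
    obtain ⟨v, rfl⟩ : ∃ v, u = v + 1 := ⟨u - 1, by omega⟩
    rw [Nat.add_sub_cancel] at hNu
    nlinarith
  -- the fibres
  have hfib : ∀ E : Finset (Sym2 (Fin n)),
      (cnt n d (fun G => EU U G = E) : ℝ) * (Nat.choose N E.card : ℝ) ≤ (u : ℝ) ^ u * R := by
    intro E
    by_cases hex : ∃ H : SimpleGraph (Fin n), EU U H = E
    · obtain ⟨H, hH⟩ := hex
      have h1 := hLC n d U H
      have h2 : cnt n d (fun G => EU U G = E) ≤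
          cnt n d (fun G => ∀ x ∈ U, ∀ y ∈ U, (G.Adj x y ↔ H.Adj x y)) := by
        rw [cnt_eq, cnt_eq]
        apply Finset.card_le_card
        intro G hG
        rw [mem_filter] at hG ⊢
        exact ⟨hG.1, agree (hG.2.trans hH.symm)⟩
      rw [E2_eq, hH, Nat.mul_div_cancel_left _ two_pos, ← hud, hNu2, ← hR] at h1
      have h3 := (Nat.mul_le_mul_right (Nat.choose N E.card) h2).trans h1
      exact_mod_cast h3
    · have h0 : cnt n d (fun G => EU U G = E) = 0 := by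
        rw [cnt_eq, Finset.card_eq_zero, Finset.filter_eq_empty_iff]
        intro G _ hG
        exact hex ⟨G, hG⟩
      rw [h0, Nat.cast_zero, zero_mul]
      positivity
  -- the admissible sets
  obtain ⟨A, hA⟩ : ∃ A : ℕ → Finset (Finset (Sym2 (Fin n))), A = fun e =>
      ((prs U).powersetCard e).filter (fun E => ∀ w ∈ D, (w ∈ E ↔ Xor (τ w ∈ E) (σ w))) := ⟨_, rfl⟩
  have hAc : ∀ e, 2 * e ≤ N → ((A e).card : ℝ) * (1 + (e : ℝ) / (N : ℝ)) ^ r ≤
      (N + 1 : ℝ) * (Nat.choose N e : ℝ) := by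
    intro e he
    have h1 := hCC (Sym2 (Fin n)) (prs U) D τ σ e r hD (fun w hw => (hτ w hw).1) hr (hN ▸ he)
    rw [← hN] at h1
    have h2 : ({E ∈ (prs U).powersetCard e | ∀ w ∈ D, (w ∈ E ↔ Xor (τ w ∈ E) (σ w))} :
        Set (Finset (Sym2 (Fin n)))) = (A e : Set (Finset (Sym2 (Fin n)))) := by
      rw [hA]
      ext E
      simp
    rw [h2, Set.ncard_coe_finset] at h1
    exact h1
  -- the cover
  obtain ⟨T, hT⟩ : ∃ T : Finset ℕ, T = (range (N + 1)).filter (fun e => m ≤ 2 * e ∧ 2 * e ≤ N) :=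
    ⟨_, rfl⟩
  have hcov : cnt n d (fun G => m ≤ E2 G U ∧ 2 * E2 G U ≤ u * (u - 1) ∧ Sat G D τ σ) ≤
      ∑ e ∈ T, ∑ E ∈ A e, cnt n d (fun G => EU U G = E) := by
    simp only [cnt_eq]
    have hsub : ((reg n d).filter
        (fun G => m ≤ E2 G U ∧ 2 * E2 G U ≤ u * (u - 1) ∧ Sat G D τ σ)) ⊆
        T.biUnion (fun e => (A e).biUnion (fun E => (reg n d).filter (fun G => EU U G = E))) := by
      intro G hG
      rw [mem_filter] at hG
      obtain ⟨hG1, hm, hG2, hS⟩ := hG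
      rw [E2_eq] at hm hG2
      rw [mem_biUnion]
      refine ⟨(EU U G).card, ?_, ?_⟩
      · rw [hT, mem_filter, mem_range]
        refine ⟨?_, hm, ?_⟩ <;> omega
      · rw [mem_biUnion]
        refine ⟨EU U G, ?_, by rw [mem_filter]; exact ⟨hG1, rfl⟩⟩
        rw [hA]
        simp only [mem_filter, mem_powersetCard]
        refine ⟨⟨fun e he => (mem_EU.1 he).1, trivial⟩, ?_⟩
        intro w hw
        have h1 := hS w hw
        have h2 : w ∈ EU U G ↔ w ∈ G.edgeSet := by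
          rw [mem_EU]
          exact ⟨fun h => h.2, fun h => ⟨hD hw, h⟩⟩
        have h3 : τ w ∈ EU U G ↔ τ w ∈ G.edgeSet := by
          rw [mem_EU, mem_prs]
          refine ⟨fun h => h.2, fun h => ⟨⟨?_, (hτ w hw).2⟩, h⟩⟩
          exact SimpleGraph.not_isDiag_of_mem_edgeSet _ h
        rw [h2, h3]
        exact h1
    refine (Finset.card_le_card hsub).trans ?_
    refine Finset.card_biUnion_le.trans (Finset.sum_le_sum fun e _ => ?_)
    exact Finset.card_biUnion_le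
  -- one term
  have hNpos : (0 : ℝ) < N := by exact_mod_cast hN1
  have hupos : (0 : ℝ) < u := by exact_mod_cast (by omega : 0 < u)
  have hone : ∀ e ∈ T, (∑ E ∈ A e, (cnt n d (fun G => EU U G = E) : ℝ)) *
      (1 + (m : ℝ) / (u : ℝ) ^ 2) ^ r ≤ (N + 1 : ℝ) * ((u : ℝ) ^ u * R) := by
    intro e he
    rw [hT, mem_filter] at he
    obtain ⟨he1, he2, he3⟩ := he
    have hch : (0 : ℝ) < Nat.choose N e := by
      exact_mod_cast Nat.choose_pos (by omega)
    have h1 : ∑ E ∈ A e, (cnt n d (fun G => EU U G = E) : ℝ) ≤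
        (A e).card * ((u : ℝ) ^ u * R / Nat.choose N e) := by
      rw [← nsmul_eq_mul]
      apply Finset.sum_le_card_nsmul
      intro E hE
      rw [hA] at hE
      simp only [mem_filter, mem_powersetCard] at hE
      rw [le_div_iff₀ hch, ← hE.1.2]
      exact hfib E
    have h2 : (m : ℝ) / (u : ℝ) ^ 2 ≤ (e : ℝ) / (N : ℝ) := by
      rw [div_le_div_iff₀ (by positivity) hNpos]
      have h3 : (m : ℝ) ≤ 2 * e := by exact_mod_cast he2
      have h4 : 2 * (N : ℝ) ≤ (u : ℝ) ^ 2 := by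
        have : 2 * N ≤ u ^ 2 := by
          rw [hNu, pow_two]
          exact Nat.mul_le_mul_left _ (by omega)
        exact_mod_cast this
      calc (m : ℝ) * N ≤ 2 * e * N := mul_le_mul_of_nonneg_right h3 hNpos.le
        _ = e * (2 * N) := by ring
        _ ≤ e * u ^ 2 := mul_le_mul_of_nonneg_left h4 (Nat.cast_nonneg e)
    have h5 : (1 + (m : ℝ) / (u : ℝ) ^ 2) ^ r ≤ (1 + (e : ℝ) / (N : ℝ)) ^ r := by
      apply pow_le_pow_left₀ (by positivity)
      linarith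
    have h6 := hAc e he3
    calc (∑ E ∈ A e, (cnt n d (fun G => EU U G = E) : ℝ)) * (1 + (m : ℝ) / (u : ℝ) ^ 2) ^ r
        ≤ ((A e).card * ((u : ℝ) ^ u * R / Nat.choose N e)) * (1 + (e : ℝ) / (N : ℝ)) ^ r :=
          mul_le_mul h1 h5 (by positivity) (by positivity)
      _ = ((A e).card * (1 + (e : ℝ) / (N : ℝ)) ^ r) * ((u : ℝ) ^ u * R / Nat.choose N e) := by ring
      _ ≤ ((N + 1 : ℝ) * (Nat.choose N e : ℝ)) * ((u : ℝ) ^ u * R / Nat.choose N e) :=
          mul_le_mul_of_nonneg_right h6 (by positivity)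
      _ = (N + 1 : ℝ) * ((u : ℝ) ^ u * R) := by
          field_simp
  have hTc : (T.card : ℝ) ≤ N + 1 := by
    have : T.card ≤ N + 1 := by
      rw [hT]
      exact (Finset.card_filter_le _ _).trans (by simp)
    exact_mod_cast this
  have hX : (0 : ℝ) ≤ (N + 1 : ℝ) * ((u : ℝ) ^ u * R) := by positivity
  have hNle' : (N + 1 : ℝ) ≤ (u : ℝ) ^ 2 := by exact_mod_cast hNle
  have hcov' : (cnt n d (fun G => m ≤ E2 G U ∧ 2 * E2 G U ≤ u * (u - 1) ∧ Sat G D τ σ) : ℝ) ≤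
      ∑ e ∈ T, ∑ E ∈ A e, (cnt n d (fun G => EU U G = E) : ℝ) := by exact_mod_cast hcov
  calc (cnt n d (fun G => m ≤ E2 G U ∧ 2 * E2 G U ≤ u * (u - 1) ∧ Sat G D τ σ) : ℝ) *
        (1 + (m : ℝ) / (u : ℝ) ^ 2) ^ r
      ≤ (∑ e ∈ T, ∑ E ∈ A e, (cnt n d (fun G => EU U G = E) : ℝ)) *
        (1 + (m : ℝ) / (u : ℝ) ^ 2) ^ r := mul_le_mul_of_nonneg_right hcov' (by positivity)
    _ = ∑ e ∈ T, (∑ E ∈ A e, (cnt n d (fun G => EU U G = E) : ℝ)) *
        (1 + (m : ℝ) / (u : ℝ) ^ 2) ^ r := Finset.sum_mul _ _ _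
    _ ≤ T.card • ((N + 1 : ℝ) * ((u : ℝ) ^ u * R)) := Finset.sum_le_card_nsmul _ _ _ hone
    _ = (T.card : ℝ) * ((N + 1 : ℝ) * ((u : ℝ) ^ u * R)) := nsmul_eq_mul _ _
    _ ≤ (N + 1 : ℝ) * ((N + 1 : ℝ) * ((u : ℝ) ^ u * R)) := mul_le_mul_of_nonneg_right hTc hX
    _ ≤ (u : ℝ) ^ 2 * ((u : ℝ) ^ 2 * ((u : ℝ) ^ u * R)) := by
        apply mul_le_mul hNle' _ hX (by positivity)
        exact mul_le_mul_of_nonneg_right hNle' (by positivity)
    _ = (u : ℝ) ^ (u + 4) * (R : ℝ) := by ring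

end Pool.Agent.K1H7.SQ
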